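import Mathlib
import Pool.Agent.TH17.LR.Bad

/-! The inequality of Q1 of MP_274814_nt is false, already for `q = 14`.  In general the transcendence
degree of `F_q` is at most `1 + φ(q)/2` minus the number of odd Dirichlet characters modulo `q` whose
primitive character takes the value `1` at some prime divisor of `q`; there is such a character as soon
as `q = p ^ a m`, `p ∤ m`, and `-1` is not a power of `p` modulo `m`. -/

open Cardinal

namespace Pool.Agent.Results.MP_274814_nt.CoprimeGamma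

/-- `F_q`, the field generated over `ℚ` by `π` and the `Γ(a / q)`, `1 ≤ a ≤ q - 1`, `gcd (a, q) = 1`. -/
noncomputable def F (q : ℕ) : IntermediateField ℚ ℂ :=
  IntermediateField.adjoin ℚ ({(Real.pi : ℂ)} ∪
    {z | ∃ a : ℕ, 1 ≤ a ∧ a ≤ q - 1 ∧ Nat.gcd a q = 1 ∧ z = Complex.Gamma ((a : ℂ) / (q : ℂ))})

/-- The number of odd Dirichlet characters `χ` modulo `q` such that the primitive character inducing `χ`
takes the value `1` at some prime `p ∣ q`. -/
noncomputable def defect (q : ℕ) : ℕ :=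
  Set.ncard {χ : DirichletCharacter ℂ q | χ.Odd ∧ ∃ p : ℕ, p.Prime ∧ p ∣ q ∧ χ.primitiveCharacter p = 1}

theorem defect_eq (q : ℕ) [NeZero q] : defect q = (Pool.Agent.TH17.LR.bad q).card := by
  unfold defect
  rw [← Set.ncard_coe_finset]
  congr 1
  ext χ
  rw [Finset.mem_coe, Pool.Agent.TH17.LR.mem_bad]
  exact Iff.rfl

/-- **The inequality of Q1 fails for `q = 14`**, with the general upper bound behind it. -/
theorem result :
    Algebra.trdeg ℚ (F 14) ≤ (Nat.totient 14 / 2 : ℕ) ∧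
    (∀ q : ℕ, 2 < q → Algebra.trdeg ℚ (F q) + (defect q : ℕ) ≤ (1 + Nat.totient q / 2 : ℕ)) ∧
    (∀ p a m : ℕ, p.Prime → 1 ≤ a → ¬ p ∣ m → (∀ i : ℕ, (p : ZMod m) ^ i ≠ -1) → 0 < defect (p ^ a * m)) := by
  have h2 : ∀ q : ℕ, 2 < q → Algebra.trdeg ℚ (F q) + (defect q : ℕ) ≤ (1 + Nat.totient q / 2 : ℕ) := by
    intro q hq
    have : NeZero q := ⟨by omega⟩
    have h1 := Pool.Agent.TH17.LR.general q hq
    have h3 := Pool.Agent.TH17.LR.card_good_add_bad hq
    have h4 : (1 + Nat.totient q / 2 : ℕ) = (1 + (Pool.Agent.TH17.LR.good q).card) + defect q := by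
      rw [defect_eq, ← h3, add_assoc]
    rw [h4, Nat.cast_add (1 + (Pool.Agent.TH17.LR.good q).card)]
    exact add_le_add_left h1 _
  have h3 : ∀ p a m : ℕ, p.Prime → 1 ≤ a → ¬ p ∣ m → (∀ i : ℕ, (p : ZMod m) ^ i ≠ -1) →
      0 < defect (p ^ a * m) := by
    intro p a m hp ha hpm hneg
    have hm0 : m ≠ 0 := fun h => hpm (h ▸ dvd_zero p)
    have : NeZero (p ^ a * m) := ⟨by have := hp.pos; positivity⟩
    rw [defect_eq]
    exact Pool.Agent.TH17.LR.exists_bad p a m hp ha hpm hneg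
  refine ⟨?_, h2, h3⟩
  have h4 : 0 < defect (2 ^ 1 * 7) := by
    refine h3 2 1 7 Nat.prime_two le_rfl (by norm_num) fun i => ?_
    have h5 : ∀ j < 3, (2 : ZMod 7) ^ j ≠ -1 := by decide
    have h6 : ((2 : ℕ) : ZMod 7) ^ i = (2 : ZMod 7) ^ (i % 3) := by
      conv_lhs => rw [← Nat.div_add_mod i 3, pow_add, pow_mul]
      have : ((2 : ℕ) : ZMod 7) ^ 3 = 1 := by decide
      rw [this, one_pow, one_mul]
      rfl
    rw [h6]
    exact h5 _ (Nat.mod_lt _ (by norm_num))
  have h7 := h2 14 (by norm_num)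
  have h8 : Nat.totient 14 / 2 = 3 := by decide
  rw [h8] at h7 ⊢
  have h9 : (1 : ℕ) ≤ defect 14 := h4
  have h10 : Algebra.trdeg ℚ (F 14) + ((1 : ℕ) : Cardinal) ≤ ((3 + 1 : ℕ) : Cardinal) := by
    refine (add_le_add_right (Nat.cast_le.2 h9) _).trans ?_
    exact h7
  rw [Nat.cast_add 3 1] at h10
  exact (Cardinal.add_le_add_iff_of_lt_aleph0 (Cardinal.natCast_lt_aleph0)).1 h10

/-- The negation of Q1, in the form of the problem file. -/
theorem negated_form : ∃ q : ℕ, 2 < q ∧ Algebra.trdeg ℚ (F q) ≤ (Nat.totient q / 2 : ℕ) :=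
  ⟨14, by norm_num, result.1⟩

end Pool.Agent.Results.MP_274814_nt.CoprimeGamma
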